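import Mathlib

set_option autoImplicit false

namespace Pool.Agent.Helper429.PT

open scoped commutatorElement

/-- the free group of countable rank -/
abbrev FF : Type := FreeGroup ℕ

lemma exists_support (w : FF) : ∃ m : ℕ, ∀ (G : Type) [Group G] (φ ψ : FF →* G),
    (∀ i < m, φ (FreeGroup.of i) = ψ (FreeGroup.of i)) → φ w = ψ w := by
  refine FreeGroup.induction_on w ?_ ?_ ?_ ?_
  · exact ⟨0, fun G _ φ ψ _ => by rw [map_one, map_one]⟩
  · intro i
    exact ⟨i + 1, fun G _ φ ψ h => h i (Nat.lt_succ_self i)⟩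
  · intro i hi
    obtain ⟨m, hm⟩ := hi
    exact ⟨m, fun G _ φ ψ h => by rw [map_inv, map_inv]; exact congrArg _ (hm G φ ψ h)⟩
  · intro x y hx hy
    obtain ⟨m, hm⟩ := hx
    obtain ⟨m', hm'⟩ := hy
    refine ⟨max m m', fun G _ φ ψ h => ?_⟩
    rw [map_mul, map_mul, hm G φ ψ (fun i hi => h i (lt_of_lt_of_le hi (le_max_left _ _))),
      hm' G φ ψ (fun i hi => h i (lt_of_lt_of_le hi (le_max_right _ _)))]

section wr

variable {D Q : Type} [Group D] [Group Q]

/-- the base group of a wreath product -/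
abbrev Bs (D Q : Type) [Group D] [Group Q] : Subgroup (RegularWreathProduct D Q) :=
  (RegularWreathProduct.rightHom : RegularWreathProduct D Q →* Q).ker

/-- evaluation of a base element at a point -/
def evb (k : Q) : Bs D Q →* D where
  toFun x := x.1.left k
  map_one' := rfl
  map_mul' x y := by
    have hx : (x.1).right = 1 := x.2
    simp [hx]

lemma evb_apply (k : Q) (x : Bs D Q) : evb k x = x.1.left k := rfl

omit [Group D] in
lemma base_ext {x y : RegularWreathProduct D Q} (hx : x.right = 1) (hy : y.right = 1)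
    (h : ∀ k, x.left k = y.left k) : x = y :=
  RegularWreathProduct.ext (funext h) (hx.trans hy.symm)

lemma base_pow_left (x : RegularWreathProduct D Q) (hx : x.right = 1) (m : ℕ) (k : Q) :
    (x ^ m).left k = (x.left k) ^ m := by
  have h := map_pow (evb (D := D) k) (⟨x, hx⟩ : Bs D Q) m
  exact h

end wr

/-! ### first wreath product -/

section first

variable {Γ : Type} [Group Γ]

/-- the wreath product of a cyclic group with a group -/
abbrev DD (q : ℕ) (Γ : Type) [Group Γ] : Type := RegularWreathProduct (Multiplicative (ZMod q)) Γ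

/-- shift of the variables -/
def sh : FF →* FF := FreeGroup.lift (fun i => FreeGroup.of (i + 1))

/-- the first word -/
def w1 (u : FF) : FF := ⁅sh u, FreeGroup.of 0 * sh u * (FreeGroup.of 0)⁻¹⁆

lemma DD_law {q : ℕ} {u : FF} (h : ∀ φ : FF →* Γ, φ u = 1) (φ : FF →* DD q Γ) :
    φ (w1 u) = 1 := by
  have h1 : (φ (sh u)).right = 1 :=
    h ((RegularWreathProduct.rightHom.comp φ).comp sh)
  have h2 : (φ (FreeGroup.of 0 * sh u * (FreeGroup.of 0)⁻¹)).right = 1 := by
    rw [map_mul, map_mul, map_inv]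
    simp [h1]
  rw [w1, map_commutatorElement, commutatorElement_eq_one_iff_mul_comm]
  refine base_ext (by simp [h1]) (by simp [h1]) fun k => ?_
  simp only [RegularWreathProduct.mul_left, Pi.mul_apply, h1, h2, inv_one, one_mul]
  exact mul_comm _ _

open Classical in
/-- the assignment that violates the word -/
noncomputable def asg (q : ℕ) (ψ : FF →* Γ) : FF →* DD q Γ :=
  FreeGroup.lift (fun i => Nat.casesOn i
    ⟨fun x => if x = 1 then Multiplicative.ofAdd (1 : ZMod q) else 1, 1⟩
    (fun j => RegularWreathProduct.inl (ψ (FreeGroup.of j))))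

lemma asg_sh (q : ℕ) (ψ : FF →* Γ) (w : FF) :
    asg q ψ (sh w) = RegularWreathProduct.inl (ψ w) := by
  have : (asg q ψ).comp sh =
      (RegularWreathProduct.inl : Γ →* DD q Γ).comp ψ := by
    ext1 i
    simp [asg, sh]
  exact DFunLike.congr_fun this w

lemma DD_fail {q : ℕ} {u : FF} (ψ : FF →* Γ) (h : ψ u ≠ 1) (m : ℕ)
    (hm : (asg q ψ (w1 u)) ^ m = 1) : q ∣ 2 * m := by
  classical
  set c := ψ u with hc
  have h0 : asg q ψ (FreeGroup.of 0) =
      ⟨fun x => if x = 1 then Multiplicative.ofAdd (1 : ZMod q) else 1, 1⟩ := by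
    simp [asg]
  have h1 : asg q ψ (w1 u) = ⁅(RegularWreathProduct.inl c : DD q Γ),
      (⟨fun x => if x = 1 then Multiplicative.ofAdd (1 : ZMod q) else 1, 1⟩ : DD q Γ) *
        RegularWreathProduct.inl c *
      (⟨fun x => if x = 1 then Multiplicative.ofAdd (1 : ZMod q) else 1, 1⟩ : DD q Γ)⁻¹⁆ := by
    rw [w1, map_commutatorElement, map_mul, map_mul, map_inv, asg_sh, h0]
  have h2 : (asg q ψ (w1 u)).right = 1 := by
    rw [h1, commutatorElement_def]
    simp
  have h3 : (asg q ψ (w1 u)).left c = Multiplicative.ofAdd (2 : ZMod q) := by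
    rw [h1, commutatorElement_def]
    have e1 : ¬ (c⁻¹ * 1 = (1 : Γ)) := by simpa using h
    have e2 : ¬ (c⁻¹ = (1 : Γ)) := by simpa using h
    simp [h, e2]
    rw [← ofAdd_add]
    norm_num
  have h4 := base_pow_left _ h2 m c
  rw [hm, h3, ← ofAdd_nsmul] at h4
  have h5 : (m • (2 : ZMod q)) = 0 := (Multiplicative.ofAdd.injective h4).symm
  rw [nsmul_eq_mul] at h5
  have h6 : ((2 * m : ℕ) : ZMod q) = 0 := by
    push_cast
    rw [mul_comm]; exact h5
  exact (ZMod.natCast_eq_zero_iff _ _).mp h6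

end first

/-! ### second wreath product -/

section second

variable {D : Type} [Group D]

/-- the wreath product with a cyclic group -/
abbrev KK (D : Type) [Group D] (s : ℕ) : Type := RegularWreathProduct D (Multiplicative (ZMod s))

/-- the substitution into two variables -/
def t2 : FF →* FF :=
  FreeGroup.lift (fun i => ⁅FreeGroup.of 0, (FreeGroup.of 1) ^ (i + 1)⁆)

lemma t2_base {s : ℕ} (φ : FF →* KK D s) (w : FF) : φ (t2 w) ∈ Bs D (Multiplicative (ZMod s)) := by
  have : (RegularWreathProduct.rightHom.comp φ).comp t2 = 1 := by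
    ext1 i
    simp only [t2, MonoidHom.coe_comp, Function.comp_apply, FreeGroup.lift_apply_of,
      map_commutatorElement, MonoidHom.one_apply]
    rw [commutatorElement_eq_one_iff_mul_comm]
    exact mul_comm _ _
  exact DFunLike.congr_fun this w

lemma KK_law {s : ℕ} {w : FF} (h : ∀ φ : FF →* D, φ w = 1) (φ : FF →* KK D s) :
    φ (t2 w) = 1 := by
  let θ : FF →* Bs D (Multiplicative (ZMod s)) := (φ.comp t2).codRestrict _ (t2_base φ)
  refine base_ext (t2_base φ w) rfl fun k => ?_
  exact h ((evb k).comp θ)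

open Classical in
/-- the assignment for the second wreath product -/
noncomputable def asg2 (s : ℕ) (φ : FF →* D) : FF →* KK D s :=
  FreeGroup.lift (fun i =>
    if i = 0 then ⟨fun k => if k = 1 then 1 else
      (φ (FreeGroup.of ((Multiplicative.toAdd k⁻¹).val - 1)))⁻¹, 1⟩
    else RegularWreathProduct.inl (Multiplicative.ofAdd (1 : ZMod s)))

lemma asg2_gen {s : ℕ} (hs : s ≠ 0) (φ : FF →* D) (i : ℕ) (hi : i + 1 < s) :
    (asg2 s φ (t2 (FreeGroup.of i))).left 1 = φ (FreeGroup.of i) := by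
  classical
  have : NeZero s := ⟨hs⟩
  have hv : ((i + 1 : ℕ) : ZMod s).val = i + 1 := ZMod.val_natCast_of_lt hi
  obtain ⟨g, hg⟩ : ∃ g, g = (Multiplicative.ofAdd (1 : ZMod s)) ^ (i + 1) := ⟨_, rfl⟩
  have hgv : (Multiplicative.toAdd g).val = i + 1 := by
    rw [hg, ← ofAdd_nsmul, toAdd_ofAdd, nsmul_eq_mul, mul_one, hv]
  have hne : ¬ g = 1 := by
    intro h
    rw [h] at hgv
    simp at hgv
  simp only [t2, FreeGroup.lift_apply_of, map_commutatorElement, map_pow]
  have h0 : asg2 s φ (FreeGroup.of 0) = ⟨fun k => if k = 1 then 1 else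
      (φ (FreeGroup.of ((Multiplicative.toAdd k⁻¹).val - 1)))⁻¹, 1⟩ := by simp [asg2]
  have h1 : asg2 s φ (FreeGroup.of 1) =
    RegularWreathProduct.inl (Multiplicative.ofAdd (1 : ZMod s)) := by simp [asg2]
  rw [h0, h1, ← map_pow, ← hg, commutatorElement_def]
  simp [hne, hgv]

lemma KK_fail {s m : ℕ} {w : FF} (hms : m < s)
    (hs : ∀ (G : Type) [Group G] (φ ψ : FF →* G),
      (∀ i < m, φ (FreeGroup.of i) = ψ (FreeGroup.of i)) → φ w = ψ w)
    (φ : FF →* D) (j : ℕ) (hj : (asg2 s φ (t2 w)) ^ j = 1) : (φ w) ^ j = 1 := by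
  let θ : FF →* Bs D (Multiplicative (ZMod s)) :=
    ((asg2 s φ).comp t2).codRestrict _ (t2_base (asg2 s φ))
  have h1 : φ w = ((evb 1).comp θ) w := by
    apply hs
    intro i hi
    exact (asg2_gen (by omega) φ i (by omega)).symm
  have h2 : θ w ^ j = 1 := Subtype.ext hj
  rw [h1, MonoidHom.comp_apply, ← map_pow, h2, map_one]

end second

end Pool.Agent.Helper429.PT
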