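import Mathlib

set_option autoImplicit false

namespace Pool.Agent.Helper429.PT

universe u

/-- A topological group is pro-p if it is profinite (compact, Hausdorff and totally disconnected)
and every open normal subgroup has index a power of p. -/
structure IsProP (p : ℕ) (G : Type u) [Group G] [TopologicalSpace G] [IsTopologicalGroup G] :
    Prop where
  compact : CompactSpace G
  t2 : T2Space G
  totallyDisconnected : TotallyDisconnectedSpace G
  index : ∀ N : Subgroup G, N.Normal → IsOpen (N : Set G) → ∃ k : ℕ, N.index = p ^ k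

section

variable {p : ℕ} {G : Type u} [Group G] [TopologicalSpace G] [IsTopologicalGroup G]

lemma IsProP.exists_normal (h : IsProP p G) {U : Set G} (hU : IsOpen U) (h1 : (1 : G) ∈ U) :
    ∃ N : Subgroup G, N.Normal ∧ IsOpen (N : Set G) ∧ (N : Set G) ⊆ U := by
  have := h.compact
  have := h.totallyDisconnected
  obtain ⟨N, hN⟩ := ProfiniteGrp.exist_openNormalSubgroup_sub_open_nhds_of_one hU h1
  exact ⟨N.toSubgroup, N.isNormal', N.isOpen, hN⟩

lemma dvd_pow_exists (hp : p.Prime) {a k : ℕ} (h : a ∣ p ^ k) : ∃ j, a = p ^ j := by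
  obtain ⟨j, _, hj⟩ := (Nat.dvd_prime_pow hp).mp h
  exact ⟨j, hj⟩

lemma IsProP.sub (hp : p.Prime) (h : IsProP p G) (H : Subgroup G) (hH : IsClosed (H : Set G)) :
    IsProP p H := by
  have i1 := h.compact
  have i2 := h.t2
  have i3 := h.totallyDisconnected
  refine ⟨isCompact_iff_compactSpace.mp hH.isCompact, inferInstance, inferInstance, ?_⟩
  intro U _ hU
  obtain ⟨V, hV, hVU⟩ := isOpen_induced_iff.mp hU
  have h1 : (1 : G) ∈ V := by
    have : (1 : H) ∈ (Subtype.val ⁻¹' V : Set H) := by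
      rw [hVU]
      exact U.one_mem
    exact this
  obtain ⟨N, hN, hNo, hNV⟩ := h.exists_normal hV h1
  obtain ⟨k, hk⟩ := h.index N hN hNo
  have h2 : N.subgroupOf H ≤ U := by
    intro x hx
    have h3 : x ∈ (Subtype.val ⁻¹' V : Set H) := hNV (Subgroup.mem_subgroupOf.mp hx)
    rw [hVU] at h3
    exact h3
  apply dvd_pow_exists hp (k := k)
  rw [← hk]
  exact (Subgroup.index_dvd_of_le h2).trans (Subgroup.relIndex_dvd_index_of_normal N H)

lemma IsProP.quot (h : IsProP p G) (N : Subgroup G) [hNn : N.Normal]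
    (hN : IsClosed (N : Set G)) : IsProP p (G ⧸ N) := by
  have i1 := h.compact
  have i2 := h.t2
  have i3 := h.totallyDisconnected
  have i4 : IsClosed (N : Set G) := hN
  have key : ∀ x : G ⧸ N, x ≠ 1 → ∃ M : Subgroup (G ⧸ N), IsOpen (M : Set (G ⧸ N)) ∧ x ∉ M := by
    intro x hx
    obtain ⟨g, rfl⟩ := QuotientGroup.mk_surjective x
    have hg : g ∉ N := fun hg => hx ((QuotientGroup.eq_one_iff g).mpr hg)
    have h1 := ProfiniteGrp.closedSubgroup_eq_sInf_open (⟨N, hN⟩ : ClosedSubgroup G)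
    change N = _ at h1
    have h2 : g ∉ sInf {M : Subgroup G | IsOpen (M : Set G) ∧ N ≤ M} := by
      intro h3
      apply hg
      rw [h1]
      exact h3
    rw [Subgroup.mem_sInf] at h2
    push Not at h2
    obtain ⟨M, ⟨hMo, hNM⟩, hgM⟩ := h2
    refine ⟨M.map (QuotientGroup.mk' N), ?_, ?_⟩
    · have h3 := (QuotientGroup.isOpenMap_coe (N := N)) _ hMo
      rw [Subgroup.coe_map]
      exact h3
    · rintro ⟨m, hm, hmg⟩
      have h4 : (m : G ⧸ N) = (g : G ⧸ N) := hmg
      rw [QuotientGroup.eq] at h4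
      apply hgM
      have := M.mul_mem hm (hNM h4)
      rwa [mul_inv_cancel_left] at this
  have i5 : TotallySeparatedSpace (G ⧸ N) := by
    rw [totallySeparatedSpace_iff_exists_isClopen]
    intro x y hxy
    obtain ⟨M, hM, hxM⟩ := key (x⁻¹ * y) (by
      intro h5
      exact hxy (inv_mul_eq_one.mp h5))
    have hMc : IsClopen (M : Set (G ⧸ N)) := ⟨M.isClosed_of_isOpen hM, hM⟩
    refine ⟨(fun z => x⁻¹ * z) ⁻¹' (M : Set (G ⧸ N)), hMc.preimage (continuous_const_mul _),
      ?_, ?_⟩
    · simp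
    · simpa using hxM
  refine ⟨inferInstance, inferInstance, inferInstance, ?_⟩
  intro U hUn hU
  obtain ⟨k, hk⟩ := h.index (U.comap (QuotientGroup.mk' N)) (hUn.comap _)
    (hU.preimage QuotientGroup.continuous_mk)
  refine ⟨k, ?_⟩
  rw [← hk, Subgroup.index_comap_of_surjective _ (QuotientGroup.mk'_surjective N)]

lemma IsProP.iso {H : Type u} [Group H] [TopologicalSpace H] [IsTopologicalGroup H]
    (h : IsProP p G) (e : G ≃ₜ* H) : IsProP p H := by
  have i1 := h.compact
  have i2 := h.t2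
  have i3 := h.totallyDisconnected
  refine ⟨e.toHomeomorph.compactSpace, e.toHomeomorph.t2Space, ?_, ?_⟩
  · refine ⟨?_⟩
    have h1 := (e.toHomeomorph.symm.isEmbedding.isTotallyDisconnected_range)
    have h2 := e.toHomeomorph.symm.isEmbedding.isTotallyDisconnected
      (s := Set.univ) (isTotallyDisconnected_of_totallyDisconnectedSpace _)
    simpa using h2
  · intro N hN hNo
    obtain ⟨k, hk⟩ := h.index (N.comap e.toMulEquiv.toMonoidHom) (hN.comap _)
      (hNo.preimage e.continuous)
    refine ⟨k, ?_⟩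
    rw [← hk, Subgroup.index_comap_of_surjective _ e.surjective]

end

lemma index_inf {p : ℕ} (hp : p.Prime) {G : Type u} [Group G] {A B : Subgroup G}
    (hA : A.Normal) (ha : ∃ k, A.index = p ^ k) (hb : ∃ k, B.index = p ^ k) :
    ∃ k, (A ⊓ B).index = p ^ k := by
  obtain ⟨a, ha⟩ := ha
  obtain ⟨b, hb⟩ := hb
  have h1 : (A ⊓ B).index = A.relIndex B * B.index := by
    rw [← Subgroup.relIndex_mul_index (inf_le_right : A ⊓ B ≤ B), Subgroup.inf_relIndex_right]
  apply dvd_pow_exists hp (k := a + b)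
  rw [h1, pow_add, hb]
  exact Nat.mul_dvd_mul_right (ha ▸ Subgroup.relIndex_dvd_index_of_normal A B) _

lemma IsProP.prod {p : ℕ} (hp : p.Prime) {I : Type u} {G : I → Type u} [∀ i, Group (G i)]
    [∀ i, TopologicalSpace (G i)] [∀ i, IsTopologicalGroup (G i)]
    (h : ∀ i, IsProP p (G i)) : IsProP p (∀ i, G i) := by
  have i1 := fun i => (h i).compact
  have i2 := fun i => (h i).t2
  have i3 := fun i => (h i).totallyDisconnected
  refine ⟨inferInstance, inferInstance, inferInstance, ?_⟩
  intro U _ hU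
  have h1 : (U : Set (∀ i, G i)) ∈ nhds (1 : ∀ i, G i) := hU.mem_nhds U.one_mem
  rw [nhds_pi, Filter.mem_pi] at h1
  obtain ⟨S, hS, t, ht, htU⟩ := h1
  have h2 : ∀ i, ∃ N : Subgroup (G i), N.Normal ∧ IsOpen (N : Set (G i)) ∧
      (N : Set (G i)) ⊆ t i := by
    intro i
    obtain ⟨V, hVt, hV, h1V⟩ := mem_nhds_iff.mp (ht i)
    obtain ⟨N, hN, hNo, hNV⟩ := (h i).exists_normal hV h1V
    exact ⟨N, hN, hNo, hNV.trans hVt⟩
  choose N hN hNo hNt using h2
  have h3 : ∀ T : Finset I, ∃ k, (⨅ i ∈ T, (N i).comap (Pi.evalMonoidHom G i)).index = p ^ k := by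
    classical
    intro T
    induction T using Finset.induction_on with
    | empty => exact ⟨0, by simp⟩
    | insert i T _ ih =>
      rw [Finset.iInf_insert]
      apply index_inf hp ((hN i).comap _) _ ih
      obtain ⟨k, hk⟩ := (h i).index (N i) (hN i) (hNo i)
      refine ⟨k, ?_⟩
      rw [Subgroup.index_comap_of_surjective, hk]
      intro x
      classical
      exact ⟨Pi.mulSingle i x, by simp⟩
  obtain ⟨k, hk⟩ := h3 hS.toFinset
  apply dvd_pow_exists hp (k := k)
  rw [← hk]
  apply Subgroup.index_dvd_of_le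
  intro x hx
  apply htU
  intro i hi
  simp only [Subgroup.mem_iInf, Subgroup.mem_comap] at hx
  exact hNt i (hx i (hS.mem_toFinset.mpr hi))

end Pool.Agent.Helper429.PT
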