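import Mathlib
import Pool.Agent.Helper429.PT.Top
import Pool.Agent.Helper429.PT.Alg

set_option autoImplicit false

namespace Pool.Agent.Helper429.PT

universe u

/-- A variety of pro-p groups: a nonempty class of pro-p groups (closed under isomorphism) which is
closed under closed subgroups, quotients by closed normal subgroups, and Cartesian products. -/
structure Variety (p : ℕ) where
  /-- membership in the class -/
  mem : ∀ (G : Type u) [Group G] [TopologicalSpace G] [IsTopologicalGroup G], Prop
  proP : ∀ (G : Type u) [Group G] [TopologicalSpace G] [IsTopologicalGroup G],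
    mem G → IsProP p G
  nonempty : ∃ (G : Type u) (_ : Group G) (_ : TopologicalSpace G) (_ : IsTopologicalGroup G),
    mem G
  iso : ∀ (G H : Type u) [Group G] [TopologicalSpace G] [IsTopologicalGroup G]
    [Group H] [TopologicalSpace H] [IsTopologicalGroup H],
    mem G → Nonempty (G ≃ₜ* H) → mem H
  sub : ∀ (G : Type u) [Group G] [TopologicalSpace G] [IsTopologicalGroup G] (H : Subgroup G),
    mem G → IsClosed (H : Set G) → mem H
  quot : ∀ (G : Type u) [Group G] [TopologicalSpace G] [IsTopologicalGroup G] (N : Subgroup G)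
    [N.Normal], mem G → IsClosed (N : Set G) → mem (G ⧸ N)
  prod : ∀ (I : Type u) (G : I → Type u) [∀ i, Group (G i)] [∀ i, TopologicalSpace (G i)]
    [∀ i, IsTopologicalGroup (G i)], (∀ i, mem (G i)) → mem (∀ i, G i)

/-- The topological group F with the map iota from X is a free group of the variety V on X: F is in
V, the map converges to 1, and every map from X to a group of V which converges to 1 extends
uniquely to a continuous homomorphism. -/
structure IsFree {p : ℕ} (V : Variety.{u} p) {X F : Type u} [Group F] [TopologicalSpace F]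
    [IsTopologicalGroup F] (ι : X → F) : Prop where
  mem : V.mem F
  tendsto : Filter.Tendsto ι Filter.cofinite (nhds 1)
  lift : ∀ (G : Type u) [Group G] [TopologicalSpace G] [IsTopologicalGroup G], V.mem G →
    ∀ f : X → G, Filter.Tendsto f Filter.cofinite (nhds 1) →
      ∃! φ : F →ₜ* G, ∀ x, φ (ι x) = f x

/-- satisfaction of a set of laws -/
def Sat (L : Set FF) (G : Type u) [Group G] : Prop := ∀ w ∈ L, ∀ φ : FF →* G, φ w = 1

lemma isProP_of_finite {p : ℕ} (hp : p.Prime) {G : Type u} [Group G] [TopologicalSpace G]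
    [IsTopologicalGroup G] [DiscreteTopology G] [Finite G] (h : ∃ k, Nat.card G = p ^ k) :
    IsProP p G := by
  refine ⟨inferInstance, inferInstance, inferInstance, ?_⟩
  intro N _ _
  obtain ⟨k, hk⟩ := h
  apply dvd_pow_exists hp (k := k)
  rw [← hk]
  exact N.index_dvd_card

/-- the variety defined by a set of laws -/
def lawVariety {p : ℕ} (hp : p.Prime) (L : Set FF) : Variety.{u} p where
  mem G := fun [Group G] [TopologicalSpace G] [IsTopologicalGroup G] => IsProP p G ∧ Sat L G
  proP G := fun h => h.1
  nonempty := by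
    refine ⟨PUnit, inferInstance, inferInstance, inferInstance, ?_, ?_⟩
    · exact isProP_of_finite hp ⟨0, by simp⟩
    · intro w _ φ
      rfl
  iso := by
    intro G H _ _ _ _ _ _
    rintro ⟨h1, h2⟩ ⟨e⟩
    refine ⟨h1.iso e, ?_⟩
    intro w hw φ
    have := h2 w hw (e.symm.toMulEquiv.toMonoidHom.comp φ)
    have h3 : e.symm (φ w) = 1 := this
    exact (map_eq_one_iff e.symm e.symm.injective).mp h3
  sub := by
    intro G _ _ _ H
    rintro ⟨h1, h2⟩ hH
    refine ⟨h1.sub hp H hH, ?_⟩
    intro w hw φ
    exact Subtype.ext (h2 w hw (H.subtype.comp φ))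
  quot := by
    intro G _ _ _ N _
    rintro ⟨h1, h2⟩ hN
    refine ⟨h1.quot N hN, ?_⟩
    intro w hw φ
    have h3 : φ = (QuotientGroup.mk' N).comp
        (FreeGroup.lift (fun i => (φ (FreeGroup.of i)).out)) := by
      ext1 i
      simp
    rw [h3, MonoidHom.comp_apply, h2 w hw, map_one]
  prod := by
    intro I G _ _ _ h
    refine ⟨IsProP.prod hp (fun i => (h i).1), ?_⟩
    intro w hw φ
    funext i
    exact (h i).2 w hw ((Pi.evalMonoidHom G i).comp φ)

/-! ### free groups exist -/

section free

variable (p : ℕ) (L : Set FF) (X : Type u)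

/-- the index set of the finite quotients -/
structure Ix where
  /-- the kernel -/
  N : Subgroup (FreeGroup X)
  normal : N.Normal
  index : ∃ k, N.index = p ^ k
  conv : ∀ᶠ x in Filter.cofinite, FreeGroup.of x ∈ N
  sat : ∀ w ∈ L, ∀ ψ : FF →* FreeGroup X, ψ w ∈ N

variable {p L X}

/-- the finite quotients -/
def Qt (j : Ix p L X) : Type u := FreeGroup X ⧸ j.N

instance (j : Ix p L X) : Group (Qt j) :=
  letI := j.normal
  inferInstanceAs (Group (FreeGroup X ⧸ j.N))

instance (j : Ix p L X) : TopologicalSpace (Qt j) := ⊥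
instance (j : Ix p L X) : DiscreteTopology (Qt j) := ⟨rfl⟩
instance (j : Ix p L X) : IsTopologicalGroup (Qt j) where
  continuous_mul := continuous_of_discreteTopology
  continuous_inv := continuous_of_discreteTopology

/-- the quotient map -/
def qm (j : Ix p L X) : FreeGroup X →* Qt j :=
  letI := j.normal
  QuotientGroup.mk' j.N

lemma qm_eq_one (j : Ix p L X) (w : FreeGroup X) : qm j w = 1 ↔ w ∈ j.N := by
  let _ := j.normal
  exact QuotientGroup.eq_one_iff w

lemma qm_surj (j : Ix p L X) : Function.Surjective (qm j) := by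
  let _ := j.normal
  exact QuotientGroup.mk'_surjective j.N

lemma Qt_card (j : Ix p L X) : ∃ k, Nat.card (Qt j) = p ^ k := j.index

lemma Qt_finite (hp : p.Prime) (j : Ix p L X) : Finite (Qt j) := by
  obtain ⟨k, hk⟩ := Qt_card j
  apply Nat.finite_of_card_ne_zero
  rw [hk]
  exact pow_ne_zero _ hp.ne_zero

lemma Qt_mem (hp : p.Prime) (j : Ix p L X) : (lawVariety hp L).mem (Qt j) := by
  have := Qt_finite hp j
  refine ⟨isProP_of_finite hp (Qt_card j), ?_⟩
  intro w hw φ
  have h3 : φ = (qm j).comp
      (FreeGroup.lift (fun i => (qm_surj j (φ (FreeGroup.of i))).choose)) := by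
    ext1 i
    rw [MonoidHom.comp_apply, FreeGroup.lift_apply_of]
    exact ((qm_surj j (φ (FreeGroup.of i))).choose_spec).symm
  rw [h3, MonoidHom.comp_apply, qm_eq_one]
  exact j.sat w hw _

variable (p L X) in
/-- the diagonal map -/
def th : FreeGroup X →* (∀ j : Ix p L X, Qt j) := MonoidHom.pi (fun j => qm j)

variable (p L X) in
/-- the free group -/
def Fr : Subgroup (∀ j : Ix p L X, Qt j) := (th p L X).range.topologicalClosure

lemma Fr_closed : IsClosed (Fr p L X : Set (∀ j : Ix p L X, Qt j)) :=
  Subgroup.isClosed_topologicalClosure _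

lemma Fr_mem (hp : p.Prime) : (lawVariety hp L).mem (Fr p L X) :=
  (lawVariety hp L).sub _ _ ((lawVariety hp L).prod _ _ (Qt_mem hp)) Fr_closed

variable (p L X) in
/-- the map into the free group -/
def th' : FreeGroup X →* Fr p L X :=
  (th p L X).codRestrict _ (fun w => Subgroup.le_topologicalClosure _ ⟨w, rfl⟩)

lemma th'_dense : DenseRange (th' p L X) := by
  intro a
  rw [closure_subtype]
  have h1 := a.2
  change (a : ∀ j : Ix p L X, Qt j) ∈ closure ((th p L X).range : Set _) at h1
  convert h1 using 2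
  ext x
  constructor
  · rintro ⟨_, ⟨w, rfl⟩, rfl⟩
    exact ⟨w, rfl⟩
  · rintro ⟨w, rfl⟩
    exact ⟨_, ⟨w, rfl⟩, rfl⟩

lemma th'_tendsto : Filter.Tendsto (fun x => th' p L X (FreeGroup.of x)) Filter.cofinite
    (nhds 1) := by
  rw [tendsto_subtype_rng, tendsto_pi_nhds]
  intro j
  rw [nhds_discrete, Filter.tendsto_pure]
  filter_upwards [j.conv] with x hx
  exact (qm_eq_one j _).mpr hx

lemma graph_one {G : Type u} [Group G] [TopologicalSpace G] [IsTopologicalGroup G]
    (hG : IsProP p G) (hL : Sat L G) (hp : p.Prime) (f : X → G)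
    (hf : Filter.Tendsto f Filter.cofinite (nhds 1)) (g : G)
    (hg : ((1 : ∀ j : Ix p L X, Qt j), g) ∈
      ((th p L X).prod (FreeGroup.lift f)).range.topologicalClosure) : g = 1 := by
  by_contra hne
  have := hG.t2
  obtain ⟨N, hN, hNo, hNs⟩ := hG.exists_normal (U := {g}ᶜ) isOpen_compl_singleton
    (fun h => hne (Set.mem_singleton_iff.mp h).symm)
  have hgN : g ∉ N := fun h => hNs h rfl
  let j : Ix p L X :=
    { N := N.comap (FreeGroup.lift f)
      normal := hN.comap _
      index := by
        obtain ⟨k, hk⟩ := hG.index N hN hNo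
        apply dvd_pow_exists hp (k := k)
        rw [Subgroup.index_comap, ← hk]
        exact Subgroup.relIndex_dvd_index_of_normal _ _
      conv := by
        have h1 := hf (hNo.mem_nhds N.one_mem)
        filter_upwards [h1] with x hx
        rw [Subgroup.mem_comap, FreeGroup.lift_apply_of]
        exact hx
      sat := by
        intro w hw ψ
        rw [Subgroup.mem_comap, ← MonoidHom.comp_apply, hL w hw]
        exact N.one_mem }
  let O : Set ((∀ j : Ix p L X, Qt j) × G) := {x | x.1 j = 1 ∧ g⁻¹ * x.2 ∈ N}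
  have hO : IsOpen O := by
    apply IsOpen.inter
    · have h1 : Continuous (fun x : (∀ j : Ix p L X, Qt j) × G => x.1 j) :=
        (continuous_apply j).comp continuous_fst
      exact (isOpen_discrete {(1 : Qt j)}).preimage h1
    · have h1 : Continuous (fun x : (∀ j : Ix p L X, Qt j) × G => g⁻¹ * x.2) :=
        continuous_snd.const_mul _
      exact hNo.preimage h1
  have hmem : ((1 : ∀ j : Ix p L X, Qt j), g) ∈ O := ⟨rfl, by simp⟩
  obtain ⟨_, hyO, ⟨w, rfl⟩⟩ := mem_closure_iff.mp hg O hO hmem
  obtain ⟨h1, h2⟩ := hyO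
  have h3 : w ∈ j.N := (qm_eq_one j w).mp h1
  have h4 : (FreeGroup.lift f) w ∈ N := h3
  have h5 : g⁻¹ * (FreeGroup.lift f) w ∈ N := h2
  apply hgN
  have h6 := N.mul_mem h4 (N.inv_mem h5)
  rw [mul_inv_rev, inv_inv, mul_inv_cancel_left] at h6
  exact h6

lemma Fr_lift (hp : p.Prime) {G : Type u} [Group G] [TopologicalSpace G] [IsTopologicalGroup G]
    (hG : IsProP p G) (hL : Sat L G) (f : X → G)
    (hf : Filter.Tendsto f Filter.cofinite (nhds 1)) :
    ∃ φ : Fr p L X →ₜ* G, ∀ x, φ (th' p L X (FreeGroup.of x)) = f x := by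
  have i1 := hG.t2
  have i2 := hG.compact
  have i3 : ∀ j : Ix p L X, Finite (Qt j) := Qt_finite hp
  set δ := (th p L X).prod (FreeGroup.lift f) with hδ
  set R := δ.range.topologicalClosure with hR
  have hRc : IsClosed (R : Set ((∀ j : Ix p L X, Qt j) × G)) :=
    Subgroup.isClosed_topologicalClosure _
  have i4 : CompactSpace R := isCompact_iff_compactSpace.mp hRc.isCompact
  have hfst : ∀ x : R, (x.1).1 ∈ Fr p L X := by
    intro x
    have h1 : x.1 ∈ closure (δ.range : Set _) := x.2
    have h2 : (x.1).1 ∈ closure (Prod.fst '' (δ.range : Set _)) :=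
      image_closure_subset_closure_image continuous_fst ⟨x.1, h1, rfl⟩
    change (x.1).1 ∈ closure ((th p L X).range : Set _)
    apply closure_mono _ h2
    rintro _ ⟨_, ⟨w, rfl⟩, rfl⟩
    exact ⟨w, rfl⟩
  let r1 : R →* Fr p L X := ((MonoidHom.fst _ _).comp R.subtype).codRestrict _ hfst
  have hr1c : Continuous r1 :=
    Continuous.subtype_mk (continuous_fst.comp continuous_subtype_val) _
  have hinj : Function.Injective r1 := by
    rw [injective_iff_map_eq_one]
    intro x hx
    have h1 : (x.1).1 = 1 := congrArg Subtype.val hx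
    have h2 : (x.1).2 = 1 := by
      apply graph_one hG hL hp f hf
      rw [← h1]
      exact x.2
    exact Subtype.ext (Prod.ext h1 h2)
  have hsurj : Function.Surjective r1 := by
    intro a
    have h1 : IsClosed (Prod.fst '' (R : Set ((∀ j : Ix p L X, Qt j) × G))) :=
      (hRc.isCompact.image continuous_fst).isClosed
    have h2 : closure ((th p L X).range : Set (∀ j : Ix p L X, Qt j)) ⊆
        Prod.fst '' (R : Set ((∀ j : Ix p L X, Qt j) × G)) := by
      apply closure_minimal _ h1
      rintro _ ⟨w, rfl⟩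
      exact ⟨δ w, Subgroup.le_topologicalClosure _ ⟨w, rfl⟩, rfl⟩
    obtain ⟨y, hy, hya⟩ := h2 a.2
    exact ⟨⟨y, hy⟩, Subtype.ext hya⟩
  let e : R ≃* Fr p L X := MulEquiv.ofBijective r1 ⟨hinj, hsurj⟩
  have hec : Continuous e := hr1c
  have hes : Continuous e.symm := by
    have := Continuous.continuous_symm_of_equiv_compact_to_t2 (f := e.toEquiv) hec
    exact this
  refine ⟨⟨((MonoidHom.snd _ _).comp R.subtype).comp e.symm.toMonoidHom, ?_⟩, ?_⟩
  · exact (continuous_snd.comp continuous_subtype_val).comp hes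
  · intro x
    have h1 : e.symm (th' p L X (FreeGroup.of x)) =
        ⟨δ (FreeGroup.of x), Subgroup.le_topologicalClosure _ ⟨_, rfl⟩⟩ := by
      rw [MulEquiv.symm_apply_eq]
      rfl
    change ((e.symm (th' p L X (FreeGroup.of x))).1).2 = f x
    rw [h1]
    change (FreeGroup.lift f) (FreeGroup.of x) = f x
    exact FreeGroup.lift_apply_of

/-- free groups of varieties defined by laws exist -/
theorem exists_free (hp : p.Prime) (L : Set FF) (X : Type u) :
    IsFree (lawVariety hp L) (fun x => th' p L X (FreeGroup.of x)) where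
  mem := Fr_mem hp
  tendsto := th'_tendsto
  lift := by
    intro G _ _ _
    rintro ⟨hG, hL⟩ f hf
    obtain ⟨φ, hφ⟩ := Fr_lift hp hG hL f hf
    refine ⟨φ, hφ, ?_⟩
    intro ψ hψ
    have := hG.t2
    apply DFunLike.coe_injective
    apply DenseRange.equalizer th'_dense ψ.continuous_toFun φ.continuous_toFun
    have h1 : (ψ : Fr p L X →* G).comp (th' p L X) = (φ : Fr p L X →* G).comp (th' p L X) := by
      ext1 x
      exact (hψ x).trans (hφ x).symm
    funext w
    exact DFunLike.congr_fun h1 w

end free

end Pool.Agent.Helper429.PT
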