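import Mathlib
import Pool.Agent.Helper429.PT.Free

set_option autoImplicit false

namespace Pool.Agent.Helper429.PT

universe u

section

variable {p : ℕ} (Γ : ℕ → Type) [∀ n, Group (Γ n)] (v : ℕ → FF)

/-- the number of variables of a word -/
noncomputable def sp (w : FF) : ℕ := (exists_support w).choose

lemma sp_spec (w : FF) : ∀ (G : Type) [Group G] (φ ψ : FF →* G),
    (∀ i < sp w, φ (FreeGroup.of i) = ψ (FreeGroup.of i)) → φ w = ψ w :=
  (exists_support w).choose_spec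

/-- the words in two variables -/
def vv (n : ℕ) : FF := t2 (w1 (v n))

/-- the finite groups which generate the variety -/
abbrev Kn (p : ℕ) (n : ℕ) : Type := KK (DD (p ^ (n + 2)) (Γ n)) (p ^ (sp (w1 (v n)) + 1))

/-- the laws -/
def LL (p : ℕ) : Set FF := {w | ∀ (n : ℕ) (φ : FF →* Kn Γ v p n), φ w = 1}

variable [∀ n, Finite (Γ n)]

lemma Kn_finite (hp : p.Prime) (n : ℕ) : Finite (Kn Γ v p n) := by
  have : NeZero (p ^ (n + 2)) := ⟨pow_ne_zero _ hp.ne_zero⟩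
  have : NeZero (p ^ (sp (w1 (v n)) + 1)) := ⟨pow_ne_zero _ hp.ne_zero⟩
  infer_instance

lemma wr_card {p : ℕ} {D Q : Type} [Group D] [Group Q] [Finite Q]
    (hD : ∃ k, Nat.card D = p ^ k) (hQ : ∃ k, Nat.card Q = p ^ k) :
    ∃ k, Nat.card (RegularWreathProduct D Q) = p ^ k := by
  obtain ⟨a, ha⟩ := hD
  obtain ⟨b, hb⟩ := hQ
  exact ⟨a * Nat.card Q + b, by rw [RegularWreathProduct.card, ha, pow_add, pow_mul, hb]⟩

lemma Kn_card (hp : p.Prime) (hc : ∀ n, ∃ k, Nat.card (Γ n) = p ^ k) (n : ℕ) :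
    ∃ k, Nat.card (Kn Γ v p n) = p ^ k := by
  have : NeZero (p ^ (n + 2)) := ⟨pow_ne_zero _ hp.ne_zero⟩
  have : NeZero (p ^ (sp (w1 (v n)) + 1)) := ⟨pow_ne_zero _ hp.ne_zero⟩
  refine wr_card (wr_card ⟨n + 2, ?_⟩ (hc n)) ⟨sp (w1 (v n)) + 1, ?_⟩
  · rw [Nat.card_congr Multiplicative.toAdd, Nat.card_zmod]
  · rw [Nat.card_congr Multiplicative.toAdd, Nat.card_zmod]

variable {Γ v}

omit [∀ n, Finite (Γ n)] in
lemma vv_law {n m : ℕ} (h : ∀ φ : FF →* Γ m, φ (v n) = 1) (φ : FF →* Kn Γ v p m) :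
    φ (vv v n) = 1 :=
  KK_law (fun ψ => DD_law h ψ) φ

lemma vv_pow_mem (hp : p.Prime) (h : ∀ n m, n < m → ∀ φ : FF →* Γ m, φ (v n) = 1) (n : ℕ) :
    ∃ E, 0 < E ∧ (vv v n) ^ E ∈ LL Γ v p := by
  have hf := Kn_finite Γ v hp
  refine ⟨∏ m ∈ Finset.range (n + 1), Nat.card (Kn Γ v p m),
    Finset.prod_pos fun m _ => Nat.card_pos, ?_⟩
  intro m φ
  by_cases hm : n < m
  · rw [map_pow, vv_law (h n m hm), one_pow]
  · have h1 : Nat.card (Kn Γ v p m) ∣ ∏ m ∈ Finset.range (n + 1), Nat.card (Kn Γ v p m) :=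
      Finset.dvd_prod_of_mem _ (Finset.mem_range.mpr (by omega))
    obtain ⟨d, hd⟩ := h1
    rw [hd, map_pow, pow_mul, pow_card_eq_one', one_pow]

omit [∀ n, Finite (Γ n)] in
lemma vv_fail (hp : p.Prime) {n : ℕ} (h : ∃ φ : FF →* Γ n, φ (v n) ≠ 1) :
    ∃ x y : Kn Γ v p n, ∀ (φ : FF →* Kn Γ v p n), φ (FreeGroup.of 0) = x →
      (∀ i, φ (FreeGroup.of (i + 1)) = y) → ∀ j, φ (vv v n) ^ j = 1 → p ^ (n + 2) ∣ 2 * j := by
  obtain ⟨ψ, hψ⟩ := h
  refine ⟨asg2 _ (asg _ ψ) (FreeGroup.of 0), asg2 _ (asg _ ψ) (FreeGroup.of 1), ?_⟩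
  intro φ h0 h1 j hj
  have h2 : φ = asg2 _ (asg _ ψ) := by
    ext1 i
    cases i with
    | zero => exact h0
    | succ i =>
      rw [h1 i]
      simp [asg2]
  rw [h2] at hj
  have h3 : sp (w1 (v n)) < p ^ (sp (w1 (v n)) + 1) :=
    (Nat.lt_succ_self _).trans (Nat.lt_pow_self hp.one_lt)
  have h4 := KK_fail h3 (sp_spec (w1 (v n))) (asg (p ^ (n + 2)) ψ) j hj
  exact DD_fail ψ hψ j h4

theorem main (hp : p.Prime) (hc : ∀ n, ∃ k, Nat.card (Γ n) = p ^ k)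
    (hlaw : ∀ n m, n < m → ∀ φ : FF →* Γ m, φ (v n) = 1)
    (hfail : ∀ n, ∃ φ : FF →* Γ n, φ (v n) ≠ 1) :
    ∃ V : Variety.{u} p,
      (∀ X : Type u, ∃ (F : Type u) (_ : Group F) (_ : TopologicalSpace F)
        (_ : IsTopologicalGroup F) (ι : X → F), IsFree V ι) ∧
      ∀ (X F : Type u) [Nontrivial X] [Group F] [TopologicalSpace F] [IsTopologicalGroup F]
        (ι : X → F), IsFree V ι → ∀ N : ℕ, ∃ g : F, IsOfFinOrder g ∧ N < orderOf g := by
  classical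
  refine ⟨lawVariety hp (LL Γ v p), fun X => ⟨_, _, _, _, _, exists_free hp (LL Γ v p) X⟩, ?_⟩
  intro X F _ _ _ _ ι hι n
  obtain ⟨a, b, hab⟩ := exists_pair_ne X
  let φ0 : FF →* F := FreeGroup.lift (fun i => Nat.casesOn i (ι a) (fun _ => ι b))
  have hφ0 : φ0 (FreeGroup.of 0) = ι a := by simp [φ0]
  have hφ1 : ∀ i, φ0 (FreeGroup.of (i + 1)) = ι b := by intro i; simp [φ0]
  obtain ⟨E, hE, hEm⟩ := vv_pow_mem (Γ := Γ) (v := v) hp hlaw n
  have hfin : IsOfFinOrder (φ0 (vv v n)) := by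
    rw [isOfFinOrder_iff_pow_eq_one]
    refine ⟨E, hE, ?_⟩
    rw [← map_pow]
    exact hι.mem.2 _ hEm φ0
  refine ⟨φ0 (vv v n), hfin, ?_⟩
  have hKf := Kn_finite Γ v hp n
  let tK : TopologicalSpace (ULift.{u} (Kn Γ v p n)) := ⊥
  have dK : DiscreteTopology (ULift.{u} (Kn Γ v p n)) := ⟨rfl⟩
  have gK : IsTopologicalGroup (ULift.{u} (Kn Γ v p n)) :=
    { continuous_mul := continuous_of_discreteTopology
      continuous_inv := continuous_of_discreteTopology }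
  have hmem : (lawVariety hp (LL Γ v p)).mem (ULift.{u} (Kn Γ v p n)) := by
    refine ⟨isProP_of_finite hp ?_, ?_⟩
    · obtain ⟨k, hk⟩ := Kn_card Γ v hp hc n
      exact ⟨k, by rw [Nat.card_congr Equiv.ulift, hk]⟩
    · intro w hw φ
      exact ULift.ext _ _ (hw n ((MulEquiv.ulift : ULift.{u} (Kn Γ v p n) ≃* _).toMonoidHom.comp φ))
  obtain ⟨x, y, hxy⟩ := vv_fail (p := p) hp (hfail n)
  let f : X → ULift.{u} (Kn Γ v p n) := fun t => if t = a then ⟨x⟩ else if t = b then ⟨y⟩ else 1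
  have hf : Filter.Tendsto f Filter.cofinite (nhds 1) := by
    rw [nhds_discrete, Filter.tendsto_pure, Filter.eventually_cofinite]
    apply (Set.toFinite {a, b}).subset
    intro t ht
    by_contra hcon
    simp only [Set.mem_insert_iff, Set.mem_singleton_iff, not_or] at hcon
    apply ht
    simp only [f, if_neg hcon.1, if_neg hcon.2]
  obtain ⟨Φ, hΦ, _⟩ := hι.lift _ hmem f hf
  have ha : Φ (ι a) = ⟨x⟩ := by rw [hΦ a]; simp [f]
  have hb : Φ (ι b) = ⟨y⟩ := by rw [hΦ b]; simp [f, hab.symm]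
  let Ψ : F →* Kn Γ v p n :=
    (MulEquiv.ulift : ULift.{u} (Kn Γ v p n) ≃* _).toMonoidHom.comp (Φ : F →* _)
  have h1 := hxy (Ψ.comp φ0) (by
      rw [MonoidHom.comp_apply, hφ0]
      exact congrArg ULift.down ha) (fun i => by
      rw [MonoidHom.comp_apply, hφ1]
      exact congrArg ULift.down hb) (orderOf (φ0 (vv v n))) (by
      rw [MonoidHom.comp_apply, ← map_pow, pow_orderOf_eq_one, map_one])
  have h2 : 0 < orderOf (φ0 (vv v n)) := hfin.orderOf_pos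
  have h3 := Nat.le_of_dvd (by omega) h1
  have h4 : 2 ^ (n + 2) ≤ p ^ (n + 2) := Nat.pow_le_pow_left hp.two_le _
  have h5 : n < 2 ^ n := Nat.lt_two_pow_self
  have h6 : 2 ^ (n + 2) = 2 * (2 * 2 ^ n) := by ring
  omega

end

end Pool.Agent.Helper429.PT
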