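import Mathlib
import Pool.Agent.Helper429.LF.Test
import Pool.Agent.Helper429.PT.Main

set_option autoImplicit false

namespace Pool.Agent.Helper429.PT

open Pool.Agent.Helper429.LF2 (WG WT GN GN_wrd GN_not_wrd wrd)

universe u

/-- components -/
def eWT (p n : ℕ) : WT p n ≃ (Fin n → (Fin n → ZMod p) → ZMod p) × (Fin n → ZMod p) where
  toFun x := (x.g, x.x)
  invFun x := ⟨x.1, x.2⟩
  left_inv _ := rfl
  right_inv _ := rfl

/-- components -/
def eWG (p : ℕ) (T : Type) : WG p T ≃ (T → ZMod p) × T where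
  toFun x := (x.f, x.t)
  invFun x := ⟨x.1, x.2⟩
  left_inv _ := rfl
  right_inv _ := rfl

lemma WT_card (p n : ℕ) (hp : p.Prime) : ∃ k, Nat.card (WT p n) = p ^ k := by
  have : NeZero p := ⟨hp.ne_zero⟩
  rw [Nat.card_congr (eWT p n), Nat.card_prod, Nat.card_fun, Nat.card_fun, Nat.card_fun,
    Nat.card_zmod]
  rw [← pow_mul]
  exact ⟨_, (pow_add _ _ _).symm⟩

lemma WT_finite (p n : ℕ) (hp : p.Prime) : Finite (WT p n) := by
  have : NeZero p := ⟨hp.ne_zero⟩
  exact Finite.of_equiv _ (eWT p n).symm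

lemma WG_finite (p n : ℕ) (hp : p.Prime) : Finite (WG p (WT p n)) := by
  have : NeZero p := ⟨hp.ne_zero⟩
  have := WT_finite p n hp
  exact Finite.of_equiv _ (eWG p (WT p n)).symm

lemma GN_card (p n : ℕ) [hp : Fact p.Prime] : ∃ k, Nat.card (GN p n) = p ^ k := by
  have h0 := WT_finite p n hp.out
  obtain ⟨a, ha⟩ := WT_card p n hp.out
  have h1 : Nat.card (WG p (WT p n)) = p ^ (Nat.card (WT p n) + a) := by
    rw [Nat.card_congr (eWG p (WT p n)), Nat.card_prod, Nat.card_fun, Nat.card_zmod, ha, pow_add]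
  obtain ⟨j, _, hj⟩ := (Nat.dvd_prime_pow hp.out).mp (h1 ▸ (GN p n).card_subgroup_dvd_card)
  exact ⟨j, hj⟩

theorem gen (p : ℕ) (hp : p.Prime) : ∃ V : Variety.{u} p,
      (∀ X : Type u, ∃ (F : Type u) (_ : Group F) (_ : TopologicalSpace F)
        (_ : IsTopologicalGroup F) (ι : X → F), IsFree V ι) ∧
      ∀ (X F : Type u) [Nontrivial X] [Group F] [TopologicalSpace F] [IsTopologicalGroup F]
        (ι : X → F), IsFree V ι → ∀ N : ℕ, ∃ g : F, IsOfFinOrder g ∧ N < orderOf g := by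
  have : Fact p.Prime := ⟨hp⟩
  have hf : ∀ n, Finite (GN p (n + 2)) := fun n => by
    have := WG_finite p (n + 2) hp
    infer_instance
  exact main (Γ := fun n => GN p (n + 2)) (v := fun n => wrd p (n + 1)) hp
    (fun n => GN_card p (n + 2))
    (fun n m h φ => GN_wrd (by omega) φ)
    (fun n => GN_not_wrd (by omega))

end Pool.Agent.Helper429.PT
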