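import Mathlib
import Pool.Agent.Helper429.TF.Mn
import Pool.Agent.Helper429.PT.Main

set_option autoImplicit false

namespace Pool.Agent.Helper429.PT

open Pool.Agent.Helper429.TF
open scoped commutatorElement
open Ht

universe u

/-- the finite two-groups -/
abbrev G2 (n : ℕ) : Type :=
  Eg (ZMod 2) (n + 2) (b0 (0 : Fin (n + 2))) (MonoidHom.id (Gm (n + 2)))

/-- the components of an element of the group of pairs -/
def eHt (d : ℕ) : Gm d ≃ (Fin d → ZMod 2) × (Fin d → Fin d → ZMod 2) where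
  toFun x := (x.a, x.M)
  invFun x := ⟨x.1, x.2⟩
  left_inv _ := rfl
  right_inv _ := rfl

/-- the components of an element -/
def eG2 (n : ℕ) : G2 n ≃ (Gm (n + 2) → ZMod 2) × (Gm (n + 2) → ZMod 2) × Gm (n + 2) where
  toFun x := (x.v, x.s, x.g)
  invFun x := ⟨x.1, x.2.1, x.2.2⟩
  left_inv _ := rfl
  right_inv _ := rfl

instance (d : ℕ) : Finite (Gm d) := Finite.of_equiv _ (eHt d).symm
instance (n : ℕ) : Finite (G2 n) := Finite.of_equiv _ (eG2 n).symm

lemma G2_card (n : ℕ) : ∃ k, Nat.card (G2 n) = 2 ^ k := by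
  rw [Nat.card_congr (eG2 n), Nat.card_prod, Nat.card_prod, Nat.card_fun, Nat.card_congr (eHt _),
    Nat.card_prod, Nat.card_fun, Nat.card_fun, Nat.card_fun, Nat.card_zmod]
  exact ⟨_, by rw [← pow_mul, ← pow_add, ← pow_add, ← pow_add]⟩

/-- reduction to the finite group -/
def tofin (n : ℕ) : WG (0 : Fin (n + 2)) →* G2 n where
  toFun x := ⟨x.v, x.s, r2 (n + 2) x.g⟩
  map_one' := by
    apply Eg.ext
    · rfl
    · rfl
    · exact map_one _
  map_mul' x y := by
    apply Eg.ext
    · rfl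
    · rfl
    · exact map_mul (r2 (n + 2)) _ _

lemma G2_fail (n : ℕ) : ∃ φ : FF →* G2 n, φ (ww FreeGroup.of (n + 2)) ≠ 1 := by
  refine ⟨(tofin n).comp (FreeGroup.lift (XX n)), ?_⟩
  intro h
  rw [MonoidHom.comp_apply, map_ww] at h
  simp only [FreeGroup.lift_apply_of] at h
  apply ww_XX n
  have h1 := ww_eq (XX n) (n + 2) (cw_top (fun x y z => Ht.class_two x y z) _)
  have h2 := congrArg Eg.s h
  change (ww (XX n) (n + 2)).s = 0 at h2
  rw [h1] at h2 ⊢
  apply Eg.ext
  · rfl
  · exact h2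
  · rfl

lemma es_ne {k d : ℕ} (hk : k < d) {b : Mt d → ZMod 2}
    (X : ℕ → Eg (ZMod 2) d b (MonoidHom.id (Gm d))) : es (MonoidHom.id (Gm d)) X k ≠ Id d := by
  intro h
  obtain ⟨l, j, hj, hl⟩ := exists_orth hk (fun i => (X (i + 3)).g.a)
  have h1 : ∀ m ≤ k, chi l j (es (MonoidHom.id (Gm d)) X m) = 0 := by
    intro m
    induction m with
    | zero => intro _; simp [es, chi]
    | succ m ih =>
      intro hm
      rw [es, Finset.sum_range_succ, chi_add]
      have h2 := ih (by omega)
      rw [es] at h2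
      rw [h2, zero_add]
      apply chi_tp
      exact hl m (by omega)
  have h3 := h1 k le_rfl
  rw [h, chi_Id, hj] at h3
  exact one_ne_zero h3

lemma bb_zero_of_ne {d : ℕ} (p : Fin d) (z : Mt d) (hz : z ≠ Id d) (v : Fn (ZMod 2) d) :
    bb (b0 p) (Lt (io z) v) v - bb (b0 p) v (Lt (io z) v) = 0 := by
  ext x
  rw [bb_shift]
  have hz' : z + Id d ≠ 0 := by
    intro h
    apply hz
    have h1 : z + Id d + Id d = z := by rw [add_assoc, mt_add_self, add_zero]
    rw [← h1, h, zero_add]
  refine Finset.sum_involution (fun M _ => M + (z + Id d)) ?_ ?_ ?_ ?_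
  · intro M _
    have h1 : M + (z + Id d) + z + Id d = M := by
      have : M + (z + Id d) + z + Id d = M + ((z + z) + (Id d + Id d)) := by abel
      rw [this, mt_add_self, mt_add_self, add_zero, add_zero]
    have h2 : M + z + Id d = M + (z + Id d) := by abel
    rw [h1, h2]
    simp only [b0, Pi.add_apply]
    have h3 : ∀ a b c s t : ZMod 2, (a + b - a) * (s * t) + (a + (b + c) + b - (a + (b + c))) *
      (t * s) = 0 := by decide
    exact h3 _ _ _ _ _
  · intro M _ _ h
    exact hz' (by simpa using h)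
  · intro M _
    exact Finset.mem_univ _
  · intro M _
    rw [add_assoc, mt_add_self, add_zero]

lemma G2_law (n m : ℕ) (h : n < m) (φ : FF →* G2 m) : φ (ww FreeGroup.of (n + 2)) = 1 := by
  rw [map_ww, ww_eq _ _ (cw_top (fun x y z => Ht.class_two x y z) _),
    bb_zero_of_ne _ _ (es_ne (by omega) _)]
  rfl

theorem two : ∃ V : Variety.{u} 2,
      (∀ X : Type u, ∃ (F : Type u) (_ : Group F) (_ : TopologicalSpace F)
        (_ : IsTopologicalGroup F) (ι : X → F), IsFree V ι) ∧
      ∀ (X F : Type u) [Nontrivial X] [Group F] [TopologicalSpace F] [IsTopologicalGroup F]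
        (ι : X → F), IsFree V ι → ∀ N : ℕ, ∃ g : F, IsOfFinOrder g ∧ N < orderOf g :=
  main (Γ := G2) (v := fun n => ww FreeGroup.of (n + 2)) Nat.prime_two G2_card G2_law G2_fail

end Pool.Agent.Helper429.PT
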